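import Pool.Agent.Helper427.Recip
import Pool.Agent.Y466.KS.Stm

/-! # KS-GS: the quadratic Gauss sum of modulus 2q with its sign (Landsberg-Schaar, a = 1) -/

set_option autoImplicit false

namespace Pool.Agent.Y131.KS

open Complex

theorem gs : Pool.Agent.Y466.KS.GS := by
  intro q hq
  haveI : NeZero (2 * q) := ⟨by omega⟩
  have h := Recip.reciprocity 1 (2 * q) 0 ⟨(q : ℤ), by push_cast; ring⟩
  have h1 : ∑ n : Fin (2 * q), cexp (Real.pi * I * ((1 : ℕ) * ((n : ℕ) : ℂ) ^ 2 +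
      ((0 : ℤ) : ℂ) * ((n : ℕ) : ℂ)) / ((2 * q : ℕ) : ℂ)) =
      ∑ x ∈ Finset.range (2 * q), Complex.exp (Real.pi * Complex.I * (x : ℂ) ^ 2 / (2 * q)) := by
    rw [Finset.sum_range]
    refine Finset.sum_congr rfl fun n _ => ?_
    congr 1
    push_cast
    ring
  rw [← h1, h]
  simp

end Pool.Agent.Y131.KS
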