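import Mathlib
import Pool.Agent.W555.KS.Defs2
import Pool.Agent.W357.KS.Fan

/-!
The mod 2 obstruction of the deleted join (coefficients `ZMod 2`): the cone, and odd maps.
-/

set_option autoImplicit false

namespace Pool.Agent.Y131.KS

open Finset Pool.Agent.W555.KS Pool.Agent.Helper133.BU Pool.Agent.W357.KS.Fan

variable {n : ℕ}

/-- the obstruction vanishes in degree `D`, coefficients `ZMod 2` -/
def VK2 (L : Finset (Finset (Fin n))) (D : ℕ) : Prop :=
  ∀ Z : Finset (Fin n) → Finset (Fin n) → ZMod 2,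
    (∀ σ τ, Z σ τ = Z τ σ) →
    (∀ σ τ, Z σ τ ≠ 0 → σ ∈ L ∧ τ ∈ L) →
    (∀ ρ τ : Finset (Fin n), Disjoint ρ τ → ρ.card + τ.card + 1 = D →
      ∑ v ∈ (ρ ∪ τ)ᶜ, (Z (insert v ρ) τ + Z ρ (insert v τ)) = 0) →
    ∑ U ∈ powersetCard D univ, Z (evenPart U) (oddPart U) = 0

theorem vk_of_vk2 {L : Finset (Finset (Fin n))} {D : ℕ} (h : VK2 L D) : VK L D := by
  intro k _ _ Z h1 h2 h3
  let _ : Algebra (ZMod 2) k := ZMod.algebra k 2
  rw [← Module.forall_dual_apply_eq_zero_iff (ZMod 2)]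
  intro φ
  rw [map_sum]
  refine h (fun σ τ => φ (Z σ τ)) (fun σ τ => by rw [h1]) ?_ ?_
  · intro σ τ h
    refine h2 σ τ ?_
    intro h'
    rw [h', map_zero] at h
    exact h rfl
  · intro ρ τ hd hc
    have := congrArg φ (h3 ρ τ hd hc)
    rw [map_sum, map_zero] at this
    simpa only [map_add] using this

/-- the boundary in the deleted join -/
def dd (Z : Finset (Fin n) → Finset (Fin n) → ZMod 2) (ρ τ : Finset (Fin n)) : ZMod 2 :=
  ∑ v ∈ (ρ ∪ τ)ᶜ, (Z (insert v ρ) τ + Z ρ (insert v τ))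

theorem bd_zz (D : ℕ) (Z : Finset (Fin n) → Finset (Fin n) → ZMod 2) :
    bd (zz (D + 1) Z) = zz D (dd Z) := by
  have h1 : bd (zz (D + 1) Z) = ∑ U ∈ powersetCard (D + 1) (univ : Finset (Fin n)), ∑ v ∈ U,
      ∑ σ ∈ U.powerset, Finsupp.single (lst (U.erase v) (σ.erase v)) (Z σ (U \ σ)) := by
    unfold zz
    rw [map_sum]
    refine Finset.sum_congr rfl fun U _ => ?_
    rw [map_sum, Finset.sum_comm]
    refine Finset.sum_congr rfl fun σ _ => ?_
    rw [bd_single, bdL_lst, Finset.smul_sum]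
    refine Finset.sum_congr rfl fun v _ => ?_
    rw [Finsupp.smul_single, smul_eq_mul, mul_one]
  have h2 : ∀ U ∈ powersetCard (D + 1) (univ : Finset (Fin n)), ∀ v ∈ U,
      ∑ σ ∈ U.powerset, Finsupp.single (lst (U.erase v) (σ.erase v)) (Z σ (U \ σ)) =
      ∑ ρ ∈ (U.erase v).powerset, Finsupp.single (lst (U.erase v) ρ)
        (Z (insert v ρ) (U.erase v \ ρ) + Z ρ (insert v (U.erase v \ ρ))) := by
    intro U _ v hv
    have hv' : v ∉ U.erase v := notMem_erase v U
    conv_lhs => rw [← insert_erase hv]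
    rw [Finset.sum_powerset_insert hv', ← Finset.sum_add_distrib]
    refine Finset.sum_congr rfl fun ρ hρ => ?_
    rw [mem_powerset] at hρ
    have hvρ : v ∉ ρ := fun h => hv' (hρ h)
    have e1 : insert v (U.erase v) \ ρ = insert v (U.erase v \ ρ) :=
      insert_sdiff_of_notMem _ hvρ
    have e2 : insert v (U.erase v) \ insert v ρ = U.erase v \ ρ := by
      ext w
      simp only [mem_sdiff, mem_insert, mem_erase, not_or]
      tauto
    rw [e1, e2, erase_insert hv', erase_eq_of_notMem hvρ, erase_insert hvρ, ← Finsupp.single_add,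
      add_comm]
  rw [h1, Finset.sum_congr rfl fun U hU => Finset.sum_congr rfl fun v hv => h2 U hU v hv]
  have h3 := sum_erase_compl D (fun W v => ∑ ρ ∈ W.powerset, Finsupp.single (lst W ρ)
        (Z (insert v ρ) (W \ ρ) + Z ρ (insert v (W \ ρ))))
  rw [h3]
  unfold zz
  refine Finset.sum_congr rfl fun W hW => ?_
  rw [Finset.sum_comm]
  refine Finset.sum_congr rfl fun ρ hρ => ?_
  rw [mem_powerset] at hρ
  rw [← Finsupp.single_finsetSum]
  unfold dd
  rw [union_sdiff_of_subset hρ]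

theorem nu_zz (D : ℕ) (Z : Finset (Fin n) → Finset (Fin n) → ZMod 2) :
    nu (zz D Z) = zz D (fun σ τ => Z τ σ) := by
  unfold zz
  rw [map_sum]
  refine Finset.sum_congr rfl fun U _ => ?_
  rw [map_sum]
  refine Finset.sum_nbij' (fun σ => U \ σ) (fun σ => U \ σ) ?_ ?_ ?_ ?_ ?_
  · intro σ _; exact mem_powerset.mpr sdiff_subset
  · intro σ _; exact mem_powerset.mpr sdiff_subset
  · intro σ hσ; exact Finset.sdiff_sdiff_eq_self (mem_powerset.mp hσ)
  · intro σ hσ; exact Finset.sdiff_sdiff_eq_self (mem_powerset.mp hσ)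
  · intro σ hσ
    rw [nu_single, lst_neg, Finset.sdiff_sdiff_eq_self (mem_powerset.mp hσ)]

/-- alternating evaluation -/
def ev (D : ℕ) (Z : Finset (Fin n) → Finset (Fin n) → ZMod 2) : ZMod 2 :=
  ∑ U ∈ powersetCard D univ, Z (evenPart U) (oddPart U)

theorem ev_add (D : ℕ) (Z Z' : Finset (Fin n) → Finset (Fin n) → ZMod 2) :
    ev D (fun σ τ => Z σ τ + Z' σ τ) = ev D Z + ev D Z' := by
  unfold ev
  rw [Finset.sum_add_distrib]

/-- the alternating evaluation of a boundary -/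
theorem ev_dd (D : ℕ) (Z : Finset (Fin n) → Finset (Fin n) → ZMod 2) :
    ev D (dd Z) = ev (D + 1) (fun σ τ => Z σ τ + Z τ σ) := by
  have hc : zz (D + 1) Z ∈ S (P (univ : Finset (Finset (Fin n))) (D + 1)) :=
    zz_mem (fun _ _ _ => ⟨mem_univ _, mem_univ _⟩)
  have h := step (L := univ) hc 0 (adm0 univ)
  rw [Function.iterate_zero_apply, Function.iterate_zero_apply, bd_zz, eval0, map_add, map_add,
    nu_zz, eval0, eval0] at h
  rw [ev_add]
  exact h.symm

end Pool.Agent.Y131.KS
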