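import Mathlib
import Pool.Agent.Y131.KS.Obs

/-!
The obstruction of a cone.
-/

set_option autoImplicit false

namespace Pool.Agent.Y131.KS

open Finset Pool.Agent.W555.KS

variable {n : ℕ}

theorem dd_dd (c : Finset (Fin n) → Finset (Fin n) → ZMod 2) (ρ τ : Finset (Fin n)) :
    dd (dd c) ρ τ = 0 := by
  classical
  set S := (ρ ∪ τ)ᶜ with hS
  let F : Fin n × Fin n → ZMod 2 := fun p =>
    c (insert p.2 (insert p.1 ρ)) τ + c (insert p.1 ρ) (insert p.2 τ) +
      (c (insert p.2 ρ) (insert p.1 τ) + c ρ (insert p.2 (insert p.1 τ)))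
  have e1 : dd (dd c) ρ τ = ∑ v ∈ S, ∑ w ∈ S.erase v, F (v, w) := by
    unfold dd
    refine Finset.sum_congr rfl fun v hv => ?_
    have s1 : (insert v ρ ∪ τ)ᶜ = S.erase v := by
      rw [hS]
      ext w
      simp only [mem_compl, mem_union, mem_insert, mem_erase]
      tauto
    have s2 : (ρ ∪ insert v τ)ᶜ = S.erase v := by
      rw [hS]
      ext w
      simp only [mem_compl, mem_union, mem_insert, mem_erase]
      tauto
    rw [s1, s2, ← Finset.sum_add_distrib]
  have e2 : ∑ v ∈ S, ∑ w ∈ S.erase v, F (v, w) = ∑ p ∈ S.offDiag, F p := by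
    rw [Finset.sum_sigma']
    refine Finset.sum_bij' (fun x _ => (x.1, x.2)) (fun p _ => ⟨p.1, p.2⟩) ?_ ?_ ?_ ?_ ?_
    · rintro ⟨v, w⟩ h
      rw [mem_sigma, mem_erase] at h
      rw [mem_offDiag]
      exact ⟨h.1, h.2.2, Ne.symm h.2.1⟩
    · rintro ⟨v, w⟩ h
      rw [mem_offDiag] at h
      rw [mem_sigma, mem_erase]
      exact ⟨h.1, Ne.symm h.2.2, h.2.1⟩
    · rintro ⟨v, w⟩ _; rfl
    · rintro ⟨v, w⟩ _; rfl
    · rintro ⟨v, w⟩ _; rfl
  rw [e1, e2]
  refine Finset.sum_involution (fun p _ => (p.2, p.1)) ?_ ?_ ?_ ?_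
  · rintro ⟨v, w⟩ _
    simp only [F]
    rw [insert_comm v w ρ, insert_comm v w τ]
    have h2 : ∀ a b x y : ZMod 2, a + x + (y + b) + (a + y + (x + b)) = 0 := by decide
    exact h2 _ _ _ _
  · rintro ⟨v, w⟩ h _
    rw [mem_offDiag] at h
    intro h'
    exact h.2.2 (congrArg Prod.snd h')
  · rintro ⟨v, w⟩ h
    rw [mem_offDiag] at h ⊢
    exact ⟨h.2.1, h.1, Ne.symm h.2.2⟩
  · rintro ⟨v, w⟩ _
    rfl

/-- embedding of faces -/
abbrev mp (σ : Finset (Fin n)) : Finset (Fin (n + 1)) := σ.map Fin.castSuccEmb

theorem last_notMem_mp (σ : Finset (Fin n)) : Fin.last n ∉ mp σ := by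
  rw [mem_map]
  rintro ⟨i, _, hi⟩
  exact (Fin.castSucc_lt_last i).ne hi

theorem castSucc_mem_mp (σ : Finset (Fin n)) (v : Fin n) : v.castSucc ∈ mp σ ↔ v ∈ σ := by
  rw [mem_map]
  constructor
  · rintro ⟨i, hi, h⟩
    have : i = v := Fin.castSucc_injective n h
    rwa [← this]
  · intro h
    exact ⟨v, h, rfl⟩

theorem mp_insert (v : Fin n) (σ : Finset (Fin n)) : mp (insert v σ) = insert v.castSucc (mp σ) := by
  rw [mp, map_insert]
  rfl

theorem mem_cone {L : Finset (Finset (Fin n))} {σ : Finset (Fin n)} :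
    mp σ ∈ coneCx L ↔ σ ∈ L := by
  rw [coneCx, mem_filter]
  have : (univ.filter (fun i : Fin n => i.castSucc ∈ mp σ)) = σ := by
    ext v
    rw [mem_filter, castSucc_mem_mp]
    simp
  rw [this]
  simp

theorem mem_cone' {L : Finset (Finset (Fin n))} {σ : Finset (Fin n)} :
    insert (Fin.last n) (mp σ) ∈ coneCx L ↔ σ ∈ L := by
  rw [coneCx, mem_filter]
  have : (univ.filter (fun i : Fin n => i.castSucc ∈ insert (Fin.last n) (mp σ))) = σ := by
    ext v
    rw [mem_filter, mem_insert, castSucc_mem_mp]
    simp [(Fin.castSucc_lt_last v).ne]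
  rw [this]
  simp

theorem sum_compl1 {M : Type*} [AddCommMonoid M] (f : Fin (n + 1) → M) (ρ τ : Finset (Fin n)) :
    ∑ v ∈ (mp ρ ∪ mp τ)ᶜ, f v = f (Fin.last n) + ∑ v ∈ (ρ ∪ τ)ᶜ, f v.castSucc := by
  have h : (mp ρ ∪ mp τ)ᶜ = insert (Fin.last n) (mp (ρ ∪ τ)ᶜ) := by
    ext v
    refine Fin.lastCases ?_ (fun v => ?_) v
    · simp only [mem_compl, mem_union, last_notMem_mp, or_self, not_false_eq_true, mem_insert,
        true_or]
    · simp only [mem_compl, mem_union, castSucc_mem_mp, mem_insert,
        (Fin.castSucc_lt_last v).ne, false_or]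
  rw [h, sum_insert (last_notMem_mp _), sum_map]
  rfl

theorem sum_compl2 {M : Type*} [AddCommMonoid M] (f : Fin (n + 1) → M) (ρ τ : Finset (Fin n)) :
    ∑ v ∈ (insert (Fin.last n) (mp ρ) ∪ mp τ)ᶜ, f v = ∑ v ∈ (ρ ∪ τ)ᶜ, f v.castSucc := by
  have h : (insert (Fin.last n) (mp ρ) ∪ mp τ)ᶜ = mp (ρ ∪ τ)ᶜ := by
    ext v
    refine Fin.lastCases ?_ (fun v => ?_) v
    · simp only [mem_compl, mem_union, mem_insert, last_notMem_mp]
      simp
    · simp only [mem_compl, mem_union, castSucc_mem_mp, mem_insert,
        (Fin.castSucc_lt_last v).ne, false_or]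
  rw [h, sum_map]
  rfl

theorem filter_lt_mp (U : Finset (Fin n)) (u : Fin n) :
    ((mp U).filter (fun w => w < u.castSucc)).card = (U.filter (fun w => w < u)).card := by
  have : (mp U).filter (fun w => w < u.castSucc) = mp (U.filter (fun w => w < u)) := by
    ext v
    refine Fin.lastCases ?_ (fun v => ?_) v
    · simp [last_notMem_mp, mem_filter]
    · simp only [mem_filter, castSucc_mem_mp, Fin.castSucc_lt_castSucc_iff]
  rw [this, card_map]

theorem filter_lt_mp' (U : Finset (Fin n)) (u : Fin n) :
    ((insert (Fin.last n) (mp U)).filter (fun w => w < u.castSucc)).card =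
      (U.filter (fun w => w < u)).card := by
  rw [filter_insert, if_neg (not_lt.2 (Fin.castSucc_lt_last u).le), filter_lt_mp]

theorem filter_lt_last (U : Finset (Fin n)) :
    ((insert (Fin.last n) (mp U)).filter (fun w => w < Fin.last n)).card = U.card := by
  rw [filter_insert, if_neg (lt_irrefl _)]
  have : (mp U).filter (fun w => w < Fin.last n) = mp U := by
    rw [filter_eq_self]
    intro v hv
    rw [mem_map] at hv
    obtain ⟨i, _, rfl⟩ := hv
    exact Fin.castSucc_lt_last i
  rw [this, card_map]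

theorem evenPart_mp (U : Finset (Fin n)) : evenPart (mp U) = mp (evenPart U) := by
  ext v
  refine Fin.lastCases ?_ (fun v => ?_) v
  · simp only [evenPart, mem_filter, last_notMem_mp, false_and]
  · rw [castSucc_mem_mp]
    simp only [evenPart, mem_filter, castSucc_mem_mp, filter_lt_mp]

theorem oddPart_mp (U : Finset (Fin n)) : oddPart (mp U) = mp (oddPart U) := by
  ext v
  refine Fin.lastCases ?_ (fun v => ?_) v
  · simp only [oddPart, mem_filter, last_notMem_mp, false_and]
  · rw [castSucc_mem_mp]
    simp only [oddPart, mem_filter, castSucc_mem_mp, filter_lt_mp]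

theorem evenPart_last (W : Finset (Fin n)) : evenPart (insert (Fin.last n) (mp W)) =
    if Even W.card then insert (Fin.last n) (mp (evenPart W)) else mp (evenPart W) := by
  ext v
  refine Fin.lastCases ?_ (fun v => ?_) v
  · simp only [evenPart, mem_filter, filter_lt_last, mem_insert, true_or, true_and]
    split_ifs with h
    · simp [h]
    · simp only [h, false_iff]
      exact last_notMem_mp _
  · have h1 : v.castSucc ∈ evenPart (insert (Fin.last n) (mp W)) ↔ v ∈ evenPart W := by
      simp only [evenPart, mem_filter, mem_insert, castSucc_mem_mp, filter_lt_mp',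
        (Fin.castSucc_lt_last v).ne, false_or]
    rw [h1]
    split_ifs with h
    · rw [mem_insert, castSucc_mem_mp]
      simp only [(Fin.castSucc_lt_last v).ne, false_or]
    · rw [castSucc_mem_mp]

theorem oddPart_last (W : Finset (Fin n)) : oddPart (insert (Fin.last n) (mp W)) =
    if Even W.card then mp (oddPart W) else insert (Fin.last n) (mp (oddPart W)) := by
  ext v
  refine Fin.lastCases ?_ (fun v => ?_) v
  · simp only [oddPart, mem_filter, filter_lt_last, mem_insert, true_or, true_and]
    split_ifs with h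
    · simp only [h, not_true_eq_false, false_iff]
      exact last_notMem_mp _
    · simp [h]
  · have h1 : v.castSucc ∈ oddPart (insert (Fin.last n) (mp W)) ↔ v ∈ oddPart W := by
      simp only [oddPart, mem_filter, mem_insert, castSucc_mem_mp, filter_lt_mp',
        (Fin.castSucc_lt_last v).ne, false_or]
    rw [h1]
    split_ifs with h
    · rw [castSucc_mem_mp]
    · rw [mem_insert, castSucc_mem_mp]
      simp only [(Fin.castSucc_lt_last v).ne, false_or]

theorem sum_powersetCard_succ {M : Type*} [AddCommMonoid M] (D : ℕ)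
    (f : Finset (Fin (n + 1)) → M) :
    ∑ U ∈ powersetCard (D + 1) (univ : Finset (Fin (n + 1))), f U =
      ∑ U ∈ powersetCard (D + 1) (univ : Finset (Fin n)), f (mp U) +
        ∑ W ∈ powersetCard D (univ : Finset (Fin n)), f (insert (Fin.last n) (mp W)) := by
  classical
  have hu : (univ : Finset (Fin (n + 1))) = insert (Fin.last n) (mp univ) := by
    ext v
    refine Fin.lastCases ?_ (fun v => ?_) v
    · simp
    · simp only [mem_univ, mem_insert, castSucc_mem_mp, or_true]
  rw [hu, powersetCard_succ_insert (last_notMem_mp _), sum_union]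
  · congr 1
    · rw [powersetCard_map, sum_map]
      rfl
    · rw [sum_image]
      · rw [powersetCard_map, sum_map]
        rfl
      · intro a ha b hb hab
        rw [mem_coe, mem_powersetCard] at ha hb
        have ha' : Fin.last n ∉ a := fun h => last_notMem_mp _ (ha.1 h)
        have hb' : Fin.last n ∉ b := fun h => last_notMem_mp _ (hb.1 h)
        have := congrArg (fun s => s.erase (Fin.last n)) hab
        simpa [erase_insert ha', erase_insert hb'] using this
  · rw [disjoint_left]
    intro a ha hb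
    rw [mem_powersetCard] at ha
    rw [mem_image] at hb
    obtain ⟨b, _, rfl⟩ := hb
    exact last_notMem_mp _ (ha.1 (mem_insert_self _ _))

theorem disj_parts (U : Finset (Fin n)) : Disjoint (evenPart U) (oddPart U) := by
  rw [disjoint_left]
  intro v h1 h2
  exact (mem_filter.1 h2).2 (mem_filter.1 h1).2

theorem union_parts (U : Finset (Fin n)) : evenPart U ∪ oddPart U = U :=
  filter_union_filter_not_eq _ _

theorem card_parts (U : Finset (Fin n)) : (evenPart U).card + (oddPart U).card = U.card := by
  rw [← card_union_of_disjoint (disj_parts U), union_parts]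

/-- the smallest element is in the first set -/
def mn (σ τ : Finset (Fin n)) : Prop := ∃ v ∈ σ, ∀ w ∈ σ ∪ τ, v ≤ w

theorem mn_swap {σ τ : Finset (Fin n)} (hd : Disjoint σ τ) (hne : (σ ∪ τ).Nonempty) :
    mn τ σ ↔ ¬ mn σ τ := by
  constructor
  · rintro ⟨v, hv, hv'⟩ ⟨w, hw, hw'⟩
    have h1 := hv' w (mem_union_right _ hw)
    have h2 := hw' v (mem_union_right _ hv)
    have h3 : v = w := le_antisymm h1 h2
    subst h3
    exact disjoint_left.1 hd hw hv
  · intro h
    have hm := min'_mem _ hne
    rcases mem_union.1 hm with h1 | h1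
    · exact absurd ⟨_, h1, fun w hw => min'_le _ _ hw⟩ h
    · refine ⟨_, h1, fun w hw => min'_le _ _ ?_⟩
      rw [union_comm]
      exact hw

open Classical in
/-- half of a symmetric chain -/
noncomputable def half (B : Finset (Fin n) → Finset (Fin n) → ZMod 2) (σ τ : Finset (Fin n)) :
    ZMod 2 := if mn σ τ then B σ τ else 0

theorem half_add {B : Finset (Fin n) → Finset (Fin n) → ZMod 2} (hB : ∀ σ τ, B σ τ = B τ σ)
    {σ τ : Finset (Fin n)} (hd : Disjoint σ τ) (hne : (σ ∪ τ).Nonempty) :
    half B σ τ + half B τ σ = B σ τ := by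
  unfold half
  rw [hB τ σ]
  have h := mn_swap hd hne
  by_cases h1 : mn σ τ
  · have h2 : ¬ mn τ σ := fun h' => (h.1 h') h1
    rw [if_pos h1, if_neg h2, add_zero]
  · have h2 : mn τ σ := h.2 h1
    rw [if_neg h1, if_pos h2, zero_add]

theorem half_ne {B : Finset (Fin n) → Finset (Fin n) → ZMod 2} {σ τ : Finset (Fin n)}
    (h : half B σ τ ≠ 0) : B σ τ ≠ 0 := by
  unfold half at h
  split_ifs at h with h1
  · exact h
  · exact absurd rfl h

theorem dd_half {B : Finset (Fin n) → Finset (Fin n) → ZMod 2} (hB : ∀ σ τ, B σ τ = B τ σ)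
    {ρ τ : Finset (Fin n)} (hd : Disjoint ρ τ) :
    dd (half B) ρ τ + dd (half B) τ ρ = dd B ρ τ := by
  unfold dd
  rw [union_comm τ ρ, ← sum_add_distrib]
  refine sum_congr rfl fun v hv => ?_
  rw [mem_compl, mem_union, not_or] at hv
  have d1 : Disjoint (insert v ρ) τ := by
    rw [disjoint_insert_left]
    exact ⟨hv.2, hd⟩
  have d2 : Disjoint ρ (insert v τ) := by
    rw [disjoint_insert_right]
    exact ⟨hv.1, hd⟩
  have h1 := half_add hB d1 ⟨v, mem_union_left _ (mem_insert_self v ρ)⟩
  have h2 := half_add hB d2 ⟨v, mem_union_right _ (mem_insert_self v τ)⟩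
  rw [← h1, ← h2]
  ring

/-- **The cone.** -/
theorem cone2 {L : Finset (Finset (Fin n))} {D : ℕ} (hL : IsCx L) (h : VK2 L D) :
    VK2 (coneCx L) (D + 1) := by
  classical
  intro Z' hsym hsupp hcyc
  set A : Finset (Fin n) → Finset (Fin n) → ZMod 2 :=
    fun σ τ => Z' (insert (Fin.last n) (mp σ)) (mp τ) with hA
  set B : Finset (Fin n) → Finset (Fin n) → ZMod 2 := fun σ τ => Z' (mp σ) (mp τ) with hB
  have hBs : ∀ σ τ, B σ τ = B τ σ := fun σ τ => hsym _ _
  have hA' : ∀ σ τ, Z' (mp σ) (insert (Fin.last n) (mp τ)) = A τ σ := fun σ τ => hsym _ _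
  -- the two cycle conditions
  have c1 : ∀ ρ τ : Finset (Fin n), Disjoint ρ τ → ρ.card + τ.card = D →
      A ρ τ + A τ ρ + dd B ρ τ = 0 := by
    intro ρ τ hd hc
    have h1 := hcyc (mp ρ) (mp τ) ((disjoint_map _).2 hd) (by rw [card_map, card_map, hc])
    rw [sum_compl1] at h1
    rw [hA'] at h1
    rw [← h1]
    congr 1
    unfold dd
    refine sum_congr rfl fun v _ => ?_
    rw [← mp_insert, ← mp_insert]
  have c2 : ∀ ρ τ : Finset (Fin n), Disjoint ρ τ → ρ.card + τ.card + 1 = D →
      dd A ρ τ = 0 := by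
    intro ρ τ hd hc
    have h1 := hcyc (insert (Fin.last n) (mp ρ)) (mp τ) (by
      rw [disjoint_insert_left]
      exact ⟨last_notMem_mp _, (disjoint_map _).2 hd⟩) (by
      rw [card_insert_of_notMem (last_notMem_mp _), card_map, card_map]
      omega)
    rw [sum_compl2] at h1
    rw [← h1]
    unfold dd
    refine sum_congr rfl fun v _ => ?_
    simp only [hA]
    rw [mp_insert, mp_insert, insert_comm]
  -- the symmetric cycle of `L`
  have hz := h (fun σ τ => if Disjoint σ τ ∧ σ.card + τ.card = D then dd (half B) σ τ + A σ τ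
    else 0) ?_ ?_ ?_
  · -- conclusion
    have e0 : ev D (dd (half B)) + ev D A = 0 := by
      rw [← ev_add, ← hz]
      unfold ev
      refine sum_congr rfl fun U hU => ?_
      rw [if_pos ⟨disj_parts U, by rw [card_parts]; exact (mem_powersetCard.1 hU).2⟩]
    have e1 : ev D (dd (half B)) = ev (D + 1) B := by
      rw [ev_dd]
      unfold ev
      refine sum_congr rfl fun U hU => ?_
      refine half_add hBs (disj_parts U) ?_
      rw [union_parts, ← card_pos, (mem_powersetCard.1 hU).2]
      omega
    have e2 : ev D A + ev D (fun σ τ => A τ σ) = 0 := by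
      have h1 : ev D (dd B) = 0 := by
        rw [ev_dd]
        unfold ev
        refine sum_eq_zero fun U _ => ?_
        show B (evenPart U) (oddPart U) + B (oddPart U) (evenPart U) = 0
        rw [hBs (oddPart U)]
        exact Pool.Agent.Helper133.BU.z2_add_self _
      have h2 : ev D A + ev D (fun σ τ => A τ σ) + ev D (dd B) = 0 := by
        rw [← ev_add, ← ev_add]
        unfold ev
        refine sum_eq_zero fun U hU => ?_
        exact c1 _ _ (disj_parts U) (by rw [card_parts]; exact (mem_powersetCard.1 hU).2)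
      rw [h1, add_zero] at h2
      exact h2
    rw [sum_powersetCard_succ]
    have e3 : ∑ U ∈ powersetCard (D + 1) (univ : Finset (Fin n)),
        Z' (evenPart (mp U)) (oddPart (mp U)) = ev (D + 1) B := by
      unfold ev
      refine sum_congr rfl fun U _ => ?_
      rw [evenPart_mp, oddPart_mp]
    rw [e3]
    rcases Nat.even_or_odd D with hD | hD
    · have e4 : ∑ W ∈ powersetCard D (univ : Finset (Fin n)),
          Z' (evenPart (insert (Fin.last n) (mp W))) (oddPart (insert (Fin.last n) (mp W))) =
          ev D A := by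
        unfold ev
        refine sum_congr rfl fun W hW => ?_
        have hW' := (mem_powersetCard.1 hW).2
        rw [evenPart_last, oddPart_last, if_pos (by rw [hW']; exact hD),
          if_pos (by rw [hW']; exact hD)]
      rw [e4, ← e1, e0]
    · have e4 : ∑ W ∈ powersetCard D (univ : Finset (Fin n)),
          Z' (evenPart (insert (Fin.last n) (mp W))) (oddPart (insert (Fin.last n) (mp W))) =
          ev D (fun σ τ => A τ σ) := by
        unfold ev
        refine sum_congr rfl fun W hW => ?_
        have hW' := (mem_powersetCard.1 hW).2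
        have hne : ¬ Even W.card := by rw [hW']; exact Nat.not_even_iff_odd.2 hD
        rw [evenPart_last, oddPart_last, if_neg hne, if_neg hne, hA']
      rw [e4, ← e1]
      have h1 : ∀ a b c : ZMod 2, a + b = 0 → b + c = 0 → a + c = 0 := by decide
      exact h1 _ _ _ e0 e2
  · -- symmetric
    intro σ τ
    by_cases hc : Disjoint σ τ ∧ σ.card + τ.card = D
    · have hc' : Disjoint τ σ ∧ τ.card + σ.card = D := ⟨hc.1.symm, by rw [add_comm]; exact hc.2⟩
      rw [if_pos hc, if_pos hc']
      have h1 := c1 σ τ hc.1 hc.2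
      rw [← dd_half hBs hc.1] at h1
      revert h1
      generalize A σ τ = a
      generalize A τ σ = b
      generalize dd (half B) σ τ = x
      generalize dd (half B) τ σ = y
      revert a b x y
      decide
    · have hc' : ¬ (Disjoint τ σ ∧ τ.card + σ.card = D) := by
        rintro ⟨h1, h2⟩
        exact hc ⟨h1.symm, by rw [add_comm]; exact h2⟩
      rw [if_neg hc, if_neg hc']
  · -- support
    intro σ τ hne
    split_ifs at hne with hc
    · rcases (by by_contra hcon; push Not at hcon; exact hne (by rw [hcon.1, hcon.2, add_zero]) :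
        dd (half B) σ τ ≠ 0 ∨ A σ τ ≠ 0) with h1 | h1
      · unfold dd at h1
        obtain ⟨v, _, hv⟩ := exists_ne_zero_of_sum_ne_zero h1
        rcases (by by_contra hcon; push Not at hcon; exact hv (by rw [hcon.1, hcon.2, add_zero]) :
          half B (insert v σ) τ ≠ 0 ∨ half B σ (insert v τ) ≠ 0) with h2 | h2
        · have h4 : B (insert v σ) τ ≠ 0 := half_ne h2
          have h3 := hsupp _ _ h4
          rw [mem_cone, mem_cone] at h3
          exact ⟨hL.2 _ h3.1 _ (subset_insert _ _), h3.2⟩
        · have h4 : B σ (insert v τ) ≠ 0 := half_ne h2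
          have h3 := hsupp _ _ h4
          rw [mem_cone, mem_cone] at h3
          exact ⟨h3.1, hL.2 _ h3.2 _ (subset_insert _ _)⟩
      · have h3 := hsupp _ _ h1
        rw [mem_cone', mem_cone] at h3
        exact h3
    · exact absurd rfl hne
  · -- cycle
    intro ρ τ hd hc
    have h1 : ∑ v ∈ (ρ ∪ τ)ᶜ, ((if Disjoint (insert v ρ) τ ∧ (insert v ρ).card + τ.card = D then
        dd (half B) (insert v ρ) τ + A (insert v ρ) τ else 0) +
        (if Disjoint ρ (insert v τ) ∧ ρ.card + (insert v τ).card = D then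
        dd (half B) ρ (insert v τ) + A ρ (insert v τ) else 0)) =
        dd (dd (half B)) ρ τ + dd A ρ τ := by
      unfold dd
      rw [← sum_add_distrib]
      refine sum_congr rfl fun v hv => ?_
      rw [mem_compl, mem_union, not_or] at hv
      have d1 : Disjoint (insert v ρ) τ := by
        rw [disjoint_insert_left]
        exact ⟨hv.2, hd⟩
      have d2 : Disjoint ρ (insert v τ) := by
        rw [disjoint_insert_right]
        exact ⟨hv.1, hd⟩
      rw [if_pos ⟨d1, by rw [card_insert_of_notMem hv.1]; omega⟩,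
        if_pos ⟨d2, by rw [card_insert_of_notMem hv.2]; omega⟩]
      ring
    rw [h1, dd_dd, c2 ρ τ hd hc, add_zero]

end Pool.Agent.Y131.KS
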