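import Mathlib
import Pool.Agent.Y131.KS.Odd
import Pool.Agent.W555.KS.Core
import Pool.Agent.W460.KS.T2C
import Pool.Agent.W977.KS.T2
import Pool.Agent.W472.KS.Spec
import Pool.Agent.W460.KS.G1
import Pool.Agent.W689.KS.DD
import Pool.Agent.W304.KS.G2
import Pool.Agent.W386.KS.G3
import Pool.Agent.W398.KS.Phi
import Pool.Agent.W540.KS.Cyc
import Pool.Agent.W386.KS.Span

/-!
The chain of theorems of project KS with the vanishing of the obstruction as hypothesis, in
characteristic `0` and `2` (adapted from modules of helpers 460, 977, 472, 386, 689).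
-/

set_option autoImplicit false

namespace Pool.Agent.Y131.KS

open Finset MvPolynomial Pool.Agent.W555.KS

def T2C' : Prop := ∀ (n q : ℕ) (L : Finset (Finset (Fin n))), IsCx L → VK2 L (2 * q + 1) →
  ∀ p : MvPolynomial (Fin n) (Kf (2 * q + 1) n), p.IsHomogeneous (q + 1) →
    p ∈ srI (Kf (2 * q + 1) n) L ⊔
      Ideal.span (Set.range (fun i : Fin (2 * q + 1) => lf (gen (2 * q + 1) n i)))

def T2' : Prop := ∀ (n d : ℕ) (L : Finset (Finset (Fin n))), IsCx L → VK2 L (d + 1) →
  ∀ r : ℕ, d < 2 * r → ∀ p : MvPolynomial (Fin n) (Kf (d + 1) n), p.IsHomogeneous r →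
    p ∈ srI (Kf (d + 1) n) L ⊔
      Ideal.span (Set.range (fun i : Fin d => lf (gen (d + 1) n i.castSucc))) ⊔
      Ideal.span {lf (gen (d + 1) n (Fin.last d)) ^ (2 * r - d)}

def Span' : Prop := ∀ (ι N m : Type) [Fintype ι] [Fintype N] [Fintype m]
  (A : N → m → MvPolynomial ι ℤ),
  (∀ w : m → FractionRing (MvPolynomial ι (ZMod 2)),
    w ∈ Submodule.span (FractionRing (MvPolynomial ι (ZMod 2)))
      (Set.range (fun i : N => fun j : m => algebraMap (MvPolynomial ι (ZMod 2))
        (FractionRing (MvPolynomial ι (ZMod 2)))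
        (MvPolynomial.map (Int.castRingHom (ZMod 2)) (A i j))))) →
  ∃ F : MvPolynomial ι ℤ, MvPolynomial.map (Int.castRingHom (ZMod 2)) F ≠ 0 ∧
    ∀ (k : Type) [Field k] (c : ι → k), aeval c F ≠ 0 →
    ∀ w : m → k, w ∈ Submodule.span k (Set.range (fun i : N => fun j : m => aeval c (A i j)))

def Spec' : Prop := ∀ (n d : ℕ) (L : Finset (Finset (Fin n))), IsCx L → VK2 L (d + 1) →
  ∀ r : ℕ, d < 2 * r → ∃ F : MvPolynomial (Fin (d + 1) × Fin n) ℤ,
    MvPolynomial.map (Int.castRingHom (ZMod 2)) F ≠ 0 ∧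
    ∀ (k : Type) [Field k] (c : Fin (d + 1) × Fin n → k), aeval c F ≠ 0 →
      ∀ p : MvPolynomial (Fin n) k, p.IsHomogeneous r →
        p ∈ srI k L ⊔
          Ideal.span (Set.range (fun i : Fin d => lf (fun v => c (i.castSucc, v)))) ⊔
          Ideal.span {lf (fun v => c (Fin.last d, v)) ^ (2 * r - d)}

def G1' : Prop := ∀ (k : Type) [Field k], (CharZero k ∨ CharP k 2) →
  ∀ (n d : ℕ) (L : Finset (Finset (Fin n))),
  d < n → IsCx L → VK2 L (d + 1) → ∀ m : Fin n →₀ ℕ, ¬ Allowed n d m → m ∈ ginSet (srI k L)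

/-- KS-G2 for every field -/
def G2' : Prop := ∀ (k : Type) [Field k] (n j : ℕ) (K : Finset (Finset (Fin n))),
  IsCx K → ∃ F : MvPolynomial (Fin n × Fin n) k, F ≠ 0 ∧ ∀ g : Fin n × Fin n → k,
    (Matrix.of (fun i j => g (i, j))).det ≠ 0 → eval g F ≠ 0 →
    (K.filter (fun σ => σ.card = j)).card ≤
      {m : Fin n →₀ ℕ | m.degree = j ∧ (∀ i ∈ m.support, (i : ℕ) + j ≤ n) ∧
        m ∉ inSet (coordI g (srI k K))}.ncard

def Cyc' : Prop := ∀ (n d : ℕ), 1 ≤ d → d < n → IsCx (cyc n d) ∧ VK2 (cyc n d) (d + 1)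

def DD' : Prop := ∀ (k : Type) [Field k], Infinite k → (CharZero k ∨ CharP k 2) →
  ∀ (n d : ℕ) (L : Finset (Finset (Fin n))),
  1 ≤ d → d < n → IsCx L → VK2 L (d + 1) → shift k L ⊆ shift k (cyc n d)

theorem isCx_cone {n : ℕ} {L : Finset (Finset (Fin n))} (hL : IsCx L) : IsCx (coneCx L) := by
  classical
  refine ⟨?_, ?_⟩
  · rw [coneCx, mem_filter]
    refine ⟨mem_univ _, ?_⟩
    have h : (univ.filter (fun i : Fin n => i.castSucc ∈ (∅ : Finset (Fin (n + 1))))) = ∅ := by
      ext i
      simp
    rw [h]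
    exact hL.1
  · intro σ hσ τ hτ
    rw [coneCx, mem_filter] at hσ ⊢
    refine ⟨mem_univ _, hL.2 _ hσ.2 _ ?_⟩
    intro i hi
    rw [mem_filter] at hi ⊢
    exact ⟨mem_univ _, hτ hi.2⟩

section C
open Pool.Agent.W460.KS

/-- the conclusion of the cone argument for one vertex and one functional -/
theorem keyC {n q : ℕ} (R : Type) [CommRing R] [Algebra (Kf (2 * q + 1) n) R]
    (h1e : StT1E) (hind : StInd)
    (L : Finset (Finset (Fin n))) (hL : IsCx L) (hE : VK2 L (2 * q + 1)) (x : Fin n → R)
    (hface : ∀ σ, σ ∉ L → ∏ v ∈ σ, x v = 0)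
    (hrow : ∀ i : Fin (2 * q + 1), ∑ v, gen (2 * q + 1) n i v • x v = 0)
    (M : R →ₗ[Kf (2 * q + 1) n] Kf (2 * q + 1) n) (v0 : Fin n) (h : Fin (2 * q + 1) → Fin n)
    (hh : EvenFun (Fin.snoc (α := fun _ => Fin n) h v0)) :
    M (halfMon x (Fin.snoc (α := fun _ => Fin n) h v0)) = 0 := by
  classical
  set k := Kf (2 * q + 1) n with hk
  have hL' : IsCx (coneCx L) := isCx_cone hL
  have hVK : VK (coneCx L) (2 * q + 1 + 1) := vk_of_vk2 (cone2 hL hE)
  let x' : Fin (n + 1) → R := Fin.snoc (α := fun _ => R) x (x v0)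
  let a : Fin (2 * q + 1 + 1) → Fin (n + 1) → k :=
    Fin.snoc (α := fun _ => Fin (n + 1) → k)
      (fun i => Fin.snoc (α := fun _ => k) (gen (2 * q + 1) n i) 0)
      (Fin.snoc (α := fun _ => k) (fun v => if v = v0 then 1 else 0) 1)
  have h2 : (2 : R) = 0 := by
    have h3 : (2 : k) = 0 := CharTwo.two_eq_zero
    have h4 := congrArg (algebraMap k R) h3
    rw [map_zero, map_ofNat] at h4
    exact h4
  have e1 := h1e k R (n + 1) (2 * q + 1) (q + 1) 0 (coneCx L) a x' M 0 hL' hVK ?_ ?_ ?_
    (by omega) (by simp)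
  · -- the identity
    have e2 : ∀ g : Fin (2 * q + 1 + 1) → Fin (n + 1), EvenFun g →
        (∏ i, a i (g i)) * M (0 ^ 0 * halfMon x' g) ^ 2 ≠ 0 →
        ∃ h : Fin (2 * q + 1) → Fin n,
          g = fun i => ((Fin.snoc (α := fun _ => Fin n) h v0 : Fin (2 * q + 1 + 1) → Fin n) i).castSucc := by
      intro g hg hne
      have h3 : ∏ i, a i (g i) ≠ 0 := left_ne_zero_of_mul hne
      rw [Finset.prod_ne_zero_iff] at h3
      have h4 : ∀ i : Fin (2 * q + 1), g i.castSucc ≠ Fin.last n := by
        intro i hi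
        apply h3 i.castSucc (Finset.mem_univ _)
        rw [hi]
        simp only [a, Fin.snoc_castSucc, Fin.snoc_last]
      have h5 : g (Fin.last _) ≠ Fin.last n := by
        intro hl
        have h6 : fib g (Fin.last n) = 1 := by
          unfold fib
          rw [Finset.card_eq_one]
          refine ⟨Fin.last _, ?_⟩
          ext i
          simp only [Finset.mem_filter, Finset.mem_univ, true_and, Finset.mem_singleton]
          constructor
          · intro hi
            refine Fin.lastCases (motive := fun i => g i = Fin.last n → i = Fin.last _) ?_ ?_ i hi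
            · intro _; rfl
            · intro j hj
              exact absurd hj (h4 j)
          · rintro rfl
            exact hl
        have h7 := hg (Fin.last n)
        rw [h6] at h7
        exact absurd h7 (by decide)
      have h8 : g (Fin.last _) = v0.castSucc := by
        obtain ⟨w, hw⟩ := Fin.exists_castSucc_eq.mpr h5
        have h9 := h3 (Fin.last _) (Finset.mem_univ _)
        rw [← hw] at h9
        simp only [a, Fin.snoc_last, Fin.snoc_castSucc] at h9
        have h10 : w = v0 := by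
          by_contra hne
          rw [if_neg hne] at h9
          exact h9 rfl
        rw [← hw, h10]
      refine ⟨fun i => (g i.castSucc).castPred (h4 i), ?_⟩
      funext i
      refine Fin.lastCases ?_ (fun j => ?_) i
      · rw [Fin.snoc_last, h8]
      · rw [Fin.snoc_castSucc, Fin.castSucc_castPred]
    let E : (Fin (2 * q + 1) → Fin n) → (Fin (2 * q + 1 + 1) → Fin (n + 1)) := fun h i =>
      ((Fin.snoc (α := fun _ => Fin n) h v0 : Fin (2 * q + 1 + 1) → Fin n) i).castSucc
    have hEinj : Function.Injective E := by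
      intro h h' hhh
      funext i
      have := congrFun hhh i.castSucc
      simp only [E, Fin.snoc_castSucc] at this
      exact Fin.castSucc_injective _ this
    let S0 : Finset (Fin (2 * q + 1) → Fin n) :=
      univ.filter fun h => EvenFun (Fin.snoc (α := fun _ => Fin n) h v0)
    have e3 : ∑ g ∈ (univ : Finset (Fin (2 * q + 1 + 1) → Fin (n + 1))).filter EvenFun,
        (∏ i, a i (g i)) * M (0 ^ 0 * halfMon x' g) ^ 2 =
        ∑ h ∈ S0, (∏ i, gen (2 * q + 1) n i (h i)) *
          M (halfMon x (Fin.snoc (α := fun _ => Fin n) h v0)) ^ 2 := by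
      symm
      have e4 : ∑ h ∈ S0, (∏ i, gen (2 * q + 1) n i (h i)) *
          M (halfMon x (Fin.snoc (α := fun _ => Fin n) h v0)) ^ 2 =
          ∑ g ∈ S0.image E, (∏ i, a i (g i)) * M (0 ^ 0 * halfMon x' g) ^ 2 := by
        rw [Finset.sum_image fun _ _ _ _ hh => hEinj hh]
        refine Finset.sum_congr rfl fun h _ => ?_
        congr 1
        · rw [Fin.prod_univ_castSucc (n := 2 * q + 1)]
          simp only [a, E, Fin.snoc_castSucc, Fin.snoc_last, if_true, mul_one]
        · rw [pow_zero, one_mul]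
          congr 2
          exact (halfMon_castSucc x (x v0) _).symm
      rw [e4]
      refine Finset.sum_subset ?_ ?_
      · intro g hg
        rw [Finset.mem_image] at hg
        obtain ⟨h, hh, rfl⟩ := hg
        rw [Finset.mem_filter]
        refine ⟨Finset.mem_univ _, ?_⟩
        exact (evenFun_castSucc _).mpr (Finset.mem_filter.mp hh).2
      · intro g hg hgn
        by_contra hne
        rw [Finset.mem_filter] at hg
        obtain ⟨h, hh⟩ := e2 g hg.2 hne
        apply hgn
        rw [Finset.mem_image]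
        refine ⟨h, ?_, hh.symm⟩
        rw [Finset.mem_filter]
        refine ⟨Finset.mem_univ _, ?_⟩
        rw [← evenFun_castSucc]
        have := hg.2
        rw [hh] at this
        exact this
    rw [e3] at e1
    -- independence
    let s : (Fin (2 * q + 1) → Fin n) → Finset (Fin (2 * q + 1) × Fin n) := fun h =>
      univ.image fun i => (i, h i)
    have hs : Function.Injective s := by
      intro h h' hhh
      funext i
      have h3 : (i, h i) ∈ s h := Finset.mem_image_of_mem _ (Finset.mem_univ i)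
      rw [hhh] at h3
      obtain ⟨j, -, hj⟩ := Finset.mem_image.mp h3
      have h4 : j = i := congrArg Prod.fst hj
      have h5 : h' j = h i := congrArg Prod.snd hj
      rw [← h5, h4]
    have : Nonempty (Fin (2 * q + 1) → Fin n) := ⟨fun _ => v0⟩
    let c : Finset (Fin (2 * q + 1) × Fin n) → k := fun t =>
      M (halfMon x (Fin.snoc (α := fun _ => Fin n) (Function.invFun s t) v0))
    have hc : ∀ h, c (s h) = M (halfMon x (Fin.snoc (α := fun _ => Fin n) h v0)) := by
      intro h
      simp only [c]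
      rw [Function.leftInverse_invFun hs h]
    have e5 := hind (Fin (2 * q + 1) × Fin n) (S0.image s) c (by
      rw [Finset.sum_image fun _ _ _ _ hh => hs hh]
      rw [← e1]
      refine Finset.sum_congr rfl fun h _ => ?_
      rw [hc]
      congr 1
      rw [map_prod, Finset.prod_image (by
        intro i _ j _ hij
        exact congrArg Prod.fst hij)]
      rfl)
    have e6 := e5 (s h) (Finset.mem_image_of_mem _ (Finset.mem_filter.mpr ⟨Finset.mem_univ _, hh⟩))
    rw [hc] at e6
    exact e6
  · -- faces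
    intro σ hσ
    have h3 : (univ.filter (fun i : Fin n => i.castSucc ∈ σ)) ∉ L := by
      intro h4
      exact hσ (Finset.mem_filter.mpr ⟨Finset.mem_univ _, h4⟩)
    have h4 := hface _ h3
    have h5 : (univ.filter (fun i : Fin n => i.castSucc ∈ σ)).map Fin.castSuccEmb ⊆ σ := by
      intro w hw
      rw [Finset.mem_map] at hw
      obtain ⟨i, hi, rfl⟩ := hw
      exact (Finset.mem_filter.mp hi).2
    rw [← Finset.prod_sdiff h5, Finset.prod_map]
    have h6 : ∏ i ∈ univ.filter (fun i : Fin n => i.castSucc ∈ σ), x' (Fin.castSuccEmb i) = 0 := by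
      rw [← h4]
      refine Finset.prod_congr rfl fun i _ => ?_
      simp only [x', Fin.castSuccEmb_apply, Fin.snoc_castSucc]
    rw [h6, mul_zero]
  · -- rows
    intro i
    rw [Fin.sum_univ_castSucc]
    simp only [a, x', Fin.snoc_castSucc, Fin.snoc_last, zero_smul, add_zero]
    exact hrow i
  · -- the last row
    rw [Fin.sum_univ_castSucc]
    simp only [a, x', Fin.snoc_castSucc, Fin.snoc_last, ite_smul, one_smul, zero_smul,
      Finset.sum_ite_eq', Finset.mem_univ, if_true]
    rw [← two_mul, h2, zero_mul]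

theorem t2c (h1e : StT1E) (hind : StInd) : T2C' := by
  classical
  intro n q L hL hE p hp
  set k := Kf (2 * q + 1) n with hk
  set I : Ideal (MvPolynomial (Fin n) k) := srI k L ⊔
      Ideal.span (Set.range (fun i : Fin (2 * q + 1) => lf (gen (2 * q + 1) n i))) with hI
  let x : Fin n → (MvPolynomial (Fin n) k ⧸ I) := fun v => Ideal.Quotient.mk I (X v)
  have hface : ∀ σ, σ ∉ L → ∏ v ∈ σ, x v = 0 := by
    intro σ hσ
    simp only [x]
    rw [← map_prod, Ideal.Quotient.eq_zero_iff_mem, hI]
    exact Ideal.mem_sup_left (Ideal.subset_span ⟨σ, hσ, rfl⟩)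
  have hrow : ∀ i : Fin (2 * q + 1), ∑ v, gen (2 * q + 1) n i v • x v = 0 := by
    intro i
    have h1 : lf (gen (2 * q + 1) n i) ∈ I := by
      rw [hI]
      exact Ideal.mem_sup_right (Ideal.subset_span ⟨i, rfl⟩)
    rw [← Ideal.Quotient.eq_zero_iff_mem] at h1
    rw [← h1]
    unfold lf
    rw [map_sum]
    refine Finset.sum_congr rfl fun v _ => ?_
    rw [map_mul, Algebra.smul_def]
    rfl
  have hmon : ∀ β : Fin n →₀ ℕ, β.degree = q + 1 → monomial β (1 : k) ∈ I := by
    intro β hβ
    have hsum : ∑ v, 2 * β v = 2 * q + 1 + 1 := by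
      rw [← Finset.mul_sum]
      have : ∑ v, β v = β.degree := (Finsupp.degree_eq_sum β).symm
      rw [this, hβ]
      ring
    obtain ⟨g, hg⟩ := exists_fib (fun v => 2 * β v) (2 * q + 1 + 1) hsum
    have hgs : (Fin.snoc (α := fun _ => Fin n) (fun i : Fin (2 * q + 1) => g i.castSucc)
        (g (Fin.last _))) = g := by
      funext i
      refine Fin.lastCases ?_ (fun j => ?_) i
      · rw [Fin.snoc_last]
      · rw [Fin.snoc_castSucc]
    have hev : EvenFun g := fun v => by
      rw [hg v]
      exact even_two_mul _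
    have h1 : halfMon x g = 0 := by
      rw [← Module.forall_dual_apply_eq_zero_iff k]
      intro M
      have := keyC (MvPolynomial (Fin n) k ⧸ I) h1e hind L hL hE x hface hrow M
        (g (Fin.last _)) (fun i : Fin (2 * q + 1) => g i.castSucc) (by rw [hgs]; exact hev)
      rw [hgs] at this
      exact this
    rw [← Ideal.Quotient.eq_zero_iff_mem, ← h1]
    unfold halfMon
    simp only [x]
    have h2 : (monomial β (1 : k) : MvPolynomial (Fin n) k) = ∏ v, X v ^ (β v) := by
      rw [MvPolynomial.monomial_eq, map_one, one_mul, Finsupp.prod_fintype]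
      intro i
      rw [pow_zero]
    rw [h2, map_prod]
    refine Finset.prod_congr rfl fun v _ => ?_
    rw [map_pow, hg v, Nat.mul_div_cancel_left _ (by norm_num)]
  rw [← MvPolynomial.support_sum_monomial_coeff p]
  refine Ideal.sum_mem _ fun β hβ => ?_
  have h1 : (monomial β (coeff β p) : MvPolynomial (Fin n) k) = C (coeff β p) * monomial β 1 := by
    rw [MvPolynomial.C_mul_monomial, mul_one]
  rw [h1]
  refine Ideal.mul_mem_left _ _ (hmon β ?_)
  have h2 := hp (MvPolynomial.mem_support_iff.mp hβ)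
  rw [Finsupp.degree_eq_weight_one]
  exact h2



end C

section T
open Pool.Agent.W977.KS

/-- KS-T2 -/
theorem t2 (h1e : StT1E) (h1o : StT1O) (hind : StInd) (h2c : T2C') : T2' := by
  intro n d L hL hemb r hr p hp
  have hv : VK L (d + 1) := vk_of_vk2 hemb
  have hJ : HomI (Jd n d L) := homI_J L _
  have hw : (wl n d).IsHomogeneous 1 := lf_hom _
  change p ∈ Jd n d L ⊔ Ideal.span {wl n d ^ (2 * r - d)}
  obtain ⟨q, hq | hq⟩ : ∃ q, d = 2 * q ∨ d + 1 = 2 * q := by
    rcases Nat.even_or_odd' d with ⟨q, hq | hq⟩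
    · exact ⟨q, Or.inl hq⟩
    · exact ⟨q + 1, Or.inr (by omega)⟩
  · -- `d = 2 q`
    subst hq
    obtain ⟨s, hs, rfl⟩ : ∃ s, 1 ≤ s ∧ r = q + s := ⟨r - q, by omega, by omega⟩
    have he : 2 * (q + s) - 2 * q = 2 * s := by omega
    rw [he]
    refine finish hJ hw ?_ s (2 * s) (fun β hβ => pointO h1o hind hs hL hv rfl β hβ) p hp
    intro p' hp'
    have h1 := h2c n q L hL hemb p' (by rwa [add_comm 1 q] at hp')
    have h2 : Ideal.span (Set.range (fun i : Fin (2 * q + 1) => lf (gen (2 * q + 1) n i)))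
        ≤ Ideal.span (Set.range (fun i : Fin (2 * q) => lf (gen (2 * q + 1) n i.castSucc)))
          ⊔ Ideal.span {wl n (2 * q)} := by
      rw [Ideal.span_le]
      rintro _ ⟨i, rfl⟩
      induction i using Fin.lastCases with
      | last => exact Ideal.mem_sup_right (Ideal.subset_span rfl)
      | cast i => exact Ideal.mem_sup_left (Ideal.subset_span ⟨i, rfl⟩)
    have h3 := (sup_le_sup_left h2 (srI (Kf (2 * q + 1) n) L)) h1
    rwa [← sup_assoc] at h3
  · -- `d + 1 = 2 q`
    obtain ⟨s, rfl⟩ : ∃ s, r = q + s := ⟨r - q, by omega⟩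
    have he : 2 * (q + s) - d = 2 * s + 1 := by omega
    rw [he]
    refine finish hJ hw ?_ s (2 * s + 1) (fun β hβ => pointE h1e hind s hL hv hq β hβ) p hp
    intro p' hp'
    refine mem_of_monomials ((Jd n d L ⊔ Ideal.span {wl n d}).restrictScalars _) ?_ hp'
    intro β hβ
    have hne : β ≠ 0 := by
      rintro rfl
      rw [map_zero] at hβ
      omega
    obtain ⟨v, hv0⟩ := Finsupp.ne_iff.1 hne
    have hv1 : 1 ≤ β v := by
      simp only [Finsupp.coe_zero, Pi.zero_apply, ne_eq] at hv0
      omega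
    obtain ⟨γ, hγ⟩ : ∃ γ : Fin n →₀ ℕ, β = Finsupp.single v 1 + γ :=
      le_iff_exists_add.1 (Finsupp.single_le_iff.2 hv1)
    have hdeg : Finsupp.degree γ = q := by
      rw [hγ, map_add, Finsupp.degree_single] at hβ
      omega
    have h3 : monomial β (1 : Kf (d + 1) n) = X v * monomial γ 1 := by
      rw [hγ, X, monomial_mul, one_mul]
    have h4 := pointE h1e hind 0 hL hv hq γ hdeg
    simp only [pow_zero, one_mul, mul_zero, zero_add, pow_one] at h4
    rw [h3]
    exact Ideal.mul_mem_left _ _ h4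



end T

section Sp
open Pool.Agent.W386.KS Pool.Agent.W472.KS

theorem span2 : Span' := by
  classical
  intro ι N m _ _ _ A hA
  obtain ⟨i, hi⟩ := exists_rows (fun (i : N) (j : m) => algebraMap (MvPolynomial ι (ZMod 2))
        (FractionRing (MvPolynomial ι (ZMod 2)))
        (MvPolynomial.map (Int.castRingHom (ZMod 2)) (A i j)))
        (Submodule.eq_top_iff'.2 hA)
  refine ⟨(Matrix.of (fun a b => A (i a) b) : Matrix m m (MvPolynomial ι ℤ)).det, ?_, ?_⟩
  · intro h0
    apply hi
    have h1 := congrArg (algebraMap (MvPolynomial ι (ZMod 2))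
        (FractionRing (MvPolynomial ι (ZMod 2)))) h0
    rw [RingHom.map_det, RingHom.map_det, map_zero] at h1
    rw [← h1]
    rfl
  · intro k _ c hc w
    have h1 : (Matrix.of (fun a b => aeval c (A (i a) b)) : Matrix m m k).det ≠ 0 := by
      intro h0
      apply hc
      have h2 := RingHom.map_det (aeval c : MvPolynomial ι ℤ →ₐ[ℤ] k).toRingHom
        (Matrix.of (fun a b => A (i a) b) : Matrix m m (MvPolynomial ι ℤ))
      have h3 : (RingHom.mapMatrix (aeval c : MvPolynomial ι ℤ →ₐ[ℤ] k).toRingHom)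
        (Matrix.of (fun a b => A (i a) b) : Matrix m m (MvPolynomial ι ℤ)) =
        (Matrix.of (fun a b => aeval c (A (i a) b)) : Matrix m m k) := by
        ext a b; rfl
      rw [h3, h0] at h2
      exact h2
    have h2 : LinearIndependent k (Matrix.of (fun a b => aeval c (A (i a) b)) : Matrix m m k).row :=
      Matrix.linearIndependent_rows_iff_isUnit.2
        ((Matrix.isUnit_iff_isUnit_det _).2 (isUnit_iff_ne_zero.2 h1))
    have h3 := h2.span_eq_top_of_card_eq_finrank' (by rw [Module.finrank_fintype_fun_eq_card])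
    have h4 : w ∈ Submodule.span k (Set.range
        (Matrix.of (fun a b => aeval c (A (i a) b)) : Matrix m m k).row) := by
      rw [h3]; trivial
    refine Submodule.span_mono ?_ h4
    rintro _ ⟨a, rfl⟩
    exact ⟨i a, rfl⟩

theorem spec (hspan : Span') (ht2 : T2') : Spec' := by
  intro n d L hL hE r hdr
  classical
  set R := MvPolynomial (Fin (d + 1) × Fin n) ℤ with hR
  have : Finite {μ : Fin n →₀ ℕ // μ.degree = r} := (Finsupp.finite_of_degree_eq r).to_subtype
  let I1 : Fintype {μ : Fin n →₀ ℕ // μ.degree = r} := Fintype.ofFinite _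
  have hfin : Finite {x : GI n d L × (Fin n →₀ ℕ) // x.2.degree + degs n d r L x.1 = r} := by
    refine Set.Finite.to_subtype (s := {x : GI n d L × (Fin n →₀ ℕ) |
      x.2.degree + degs n d r L x.1 = r}) ?_
    refine Set.Finite.subset ((Set.finite_univ (α := GI n d L)).prod
      (Finsupp.finite_of_degree_le (σ := Fin n) r)) ?_
    rintro ⟨j, ν⟩ h
    refine ⟨Set.mem_univ _, ?_⟩
    simp only [Set.mem_setOf_eq] at h ⊢
    omega
  let I2 : Fintype {x : GI n d L × (Fin n →₀ ℕ) // x.2.degree + degs n d r L x.1 = r} :=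
    Fintype.ofFinite _
  let A : {x : GI n d L × (Fin n →₀ ℕ) // x.2.degree + degs n d r L x.1 = r} →
      {μ : Fin n →₀ ℕ // μ.degree = r} → MvPolynomial (Fin (d + 1) × Fin n) ℤ :=
    fun x μ => coeff μ.1 (monomial x.1.2 (1 : MvPolynomial (Fin (d + 1) × Fin n) ℤ) *
      gens n d r L (fun y => (X y : MvPolynomial (Fin (d + 1) × Fin n) ℤ)) x.1.1)
  -- change of coefficients of the rows
  have hrow : ∀ (k : Type) [Field k] (f : MvPolynomial (Fin (d + 1) × Fin n) ℤ →+* k)
      (x : {x : GI n d L × (Fin n →₀ ℕ) // x.2.degree + degs n d r L x.1 = r}),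
      (fun μ => f (A x μ)) = coeffs k n r (monomial x.1.2 (1 : k) *
        gens n d r L (fun y => f (X y)) x.1.1) := by
    intro k _ f x
    funext μ
    rw [coeffs_apply]
    show f (coeff μ.1 _) = _
    rw [← coeff_map, map_mul, gens_map, map_monomial, map_one]
  obtain ⟨F, hF0, hF⟩ := hspan (Fin (d + 1) × Fin n)
    {x : GI n d L × (Fin n →₀ ℕ) // x.2.degree + degs n d r L x.1 = r}
    {μ : Fin n →₀ ℕ // μ.degree = r} A (by
      intro w
      obtain ⟨p, hp, rfl⟩ := coeffs_surj (Kf (d + 1) n) n r w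
      let f : MvPolynomial (Fin (d + 1) × Fin n) ℤ →+* Kf (d + 1) n :=
        (algebraMap (MvPolynomial (Fin (d + 1) × Fin n) (ZMod 2)) (Kf (d + 1) n)).comp
          (MvPolynomial.map (Int.castRingHom (ZMod 2)))
      have hfX : (fun y => f (X y)) = fun y : Fin (d + 1) × Fin n => gen (d + 1) n y.1 y.2 := by
        funext y
        simp [f, gen]
      have h1 := ht2 n d L hL hE r hdr p hp
      have h2 : p ∈ Ideal.span (Set.range (gens n d r L (fun y => f (X y)))) := by
        rw [hfX, span_gens]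
        exact h1
      have h3 := mem_span_of_homog _ _ (gens_homog n d r L (fun y => f (X y))) r p hp h2
      have h4 := Submodule.mem_map_of_mem (f := coeffs (Kf (d + 1) n) n r) h3
      rw [Submodule.map_span, ← Set.range_comp] at h4
      have h5 : (fun i : {x : GI n d L × (Fin n →₀ ℕ) // x.2.degree + degs n d r L x.1 = r} =>
          fun j : {μ : Fin n →₀ ℕ // μ.degree = r} =>
          algebraMap (MvPolynomial (Fin (d + 1) × Fin n) (ZMod 2)) (Kf (d + 1) n)
          (MvPolynomial.map (Int.castRingHom (ZMod 2)) (A i j))) =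
          (coeffs (Kf (d + 1) n) n r ∘ fun x => monomial x.1.2 (1 : Kf (d + 1) n) *
            gens n d r L (fun y => f (X y)) x.1.1) := by
        funext x
        exact hrow (Kf (d + 1) n) f x
      rw [h5]
      exact h4)
  refine ⟨F, hF0, ?_⟩
  intro k _ c hc p hp
  have h1 := hF k c hc (coeffs k n r p)
  have h2 : (fun i : {x : GI n d L × (Fin n →₀ ℕ) // x.2.degree + degs n d r L x.1 = r} =>
      fun j : {μ : Fin n →₀ ℕ // μ.degree = r} => aeval c (A i j)) =
      (coeffs k n r ∘ fun x => monomial x.1.2 (1 : k) * gens n d r L c x.1.1) := by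
    funext x
    have := hrow k (aeval c : MvPolynomial (Fin (d + 1) × Fin n) ℤ →ₐ[ℤ] k).toRingHom x
    simpa using this
  rw [h2, Set.range_comp, ← Submodule.map_span] at h1
  obtain ⟨q, hq, hqp⟩ := h1
  have h3 : q.IsHomogeneous r ∧ q ∈ Ideal.span (Set.range (gens n d r L c)) := by
    refine Submodule.span_induction (p := fun q _ => q.IsHomogeneous r ∧
      q ∈ Ideal.span (Set.range (gens n d r L c))) ?_ ?_ ?_ ?_ hq
    · rintro _ ⟨x, rfl⟩
      refine ⟨?_, ?_⟩
      · have := (isHomogeneous_monomial (σ := Fin n) (d := x.1.2) (1 : k) rfl).mul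
          (gens_homog n d r L c x.1.1)
        rw [x.2] at this
        exact this
      · exact Ideal.mul_mem_left _ _ (Ideal.subset_span ⟨_, rfl⟩)
    · exact ⟨isHomogeneous_zero _ _ _, Ideal.zero_mem _⟩
    · intro x y _ _ hx hy
      exact ⟨hx.1.add hy.1, Ideal.add_mem _ hx.2 hy.2⟩
    · intro a x _ hx
      refine ⟨(homogeneousSubmodule (Fin n) k r).smul_mem a hx.1, ?_⟩
      rw [MvPolynomial.smul_eq_C_mul]
      exact Ideal.mul_mem_left _ _ hx.2
  have h4 : q = p := coeffs_inj k n r q p h3.1 hp hqp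
  rw [← h4, ← span_gens]
  exact h3.2



end Sp

section G
open Pool.Agent.W460.KS

theorem map_ne {σ k : Type} [Field k] (hk : CharZero k ∨ CharP k 2) {F : MvPolynomial σ ℤ}
    (hF : MvPolynomial.map (Int.castRingHom (ZMod 2)) F ≠ 0) :
    MvPolynomial.map (Int.castRingHom k) F ≠ 0 := by
  rcases hk with hk | hk
  · intro h
    apply hF
    have h1 : F = 0 := map_injective (Int.castRingHom k) (RingHom.injective_int _)
      (by rw [h, map_zero])
    rw [h1, map_zero]
  · intro h
    apply hF
    have e : (Int.castRingHom k) = (ZMod.castHom (dvd_refl 2) k).comp (Int.castRingHom (ZMod 2)) :=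
      RingHom.ext_int _ _
    rw [e, ← MvPolynomial.map_map] at h
    exact map_injective (ZMod.castHom (dvd_refl 2) k) (RingHom.injective _) (by rw [h, map_zero])

theorem g1 (hs : Spec') : G1' := by
  classical
  intro k _ hk n d L hdn hL hE m hm
  set r : ℕ := ∑ i ∈ (univ : Finset (Fin n)).filter (fun i : Fin n => (i : ℕ) + d < n), m i with hr
  let w : Fin n := ⟨n - d - 1, by omega⟩
  have hw : (w : ℕ) + d + 1 = n := by simp only [w]; omega
  have hm1 : d + m w < 2 * r := by
    unfold Allowed at hm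
    rw [not_le] at hm
    have h1 : (univ : Finset (Fin n)).filter (fun i : Fin n => (i : ℕ) + d + 1 = n) = {w} := by
      ext i
      simp only [Finset.mem_filter, Finset.mem_univ, true_and, Finset.mem_singleton]
      constructor
      · intro h
        apply Fin.ext
        omega
      · rintro rfl
        exact hw
    rw [h1, Finset.sum_singleton] at hm
    exact hm
  obtain ⟨F, hF, hF'⟩ := hs n d L hL hE r (by omega)
  let row : Fin (d + 1) → Fin n := fun i => ⟨n - 1 - i, by omega⟩
  have hrow : Function.Injective row := by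
    intro i j hij
    have := congrArg Fin.val hij
    simp only [row] at this
    apply Fin.ext
    omega
  let ρ : Fin (d + 1) × Fin n → Fin n × Fin n := fun p => (row p.1, p.2)
  have hρ : Function.Injective ρ := by
    rintro ⟨i, v⟩ ⟨j, u⟩ h
    have h1 : row i = row j := congrArg Prod.fst h
    have h2 : v = u := congrArg Prod.snd h
    rw [hrow h1, h2]
  refine ⟨rename ρ (map (Int.castRingHom k) F), ?_, ?_⟩
  · intro h
    exact map_ne hk hF (rename_injective ρ hρ (by rw [h, map_zero]))
  intro g hg hgF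
  have hF2 := hF' k (fun p => g (ρ p)) (by
    rw [eval_rename, eval_map] at hgF
    rw [aeval_def]
    exact hgF)
  -- the two parts of `m`
  set m' : Fin n →₀ ℕ := m.filter (fun i => (i : ℕ) + d < n) with hm'
  set m'' : Fin n →₀ ℕ := m.filter (fun i => ¬ (i : ℕ) + d < n) with hm''
  have hmm : m'' + m' = m := by
    rw [add_comm]
    exact Finsupp.filter_add_filter_not m _
  have hdeg' : m'.degree = r := by
    rw [Finsupp.degree_eq_sum, hr, Finset.sum_filter]
    refine Finset.sum_congr rfl fun i _ => ?_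
    rw [hm', Finsupp.filter_apply]
  have hm0 : ∀ i : Fin n, n ≤ (i : ℕ) + d → m' i = 0 := by
    intro i hi
    rw [hm', Finsupp.filter_apply, if_neg (by omega)]
  have hmw : m' w < 2 * r - d := by
    rw [hm', Finsupp.filter_apply, if_pos (by omega)]
    omega
  -- the monomial ideal
  let S : Set (Fin n →₀ ℕ) := {s | (∃ i : Fin d, s = Finsupp.single (row i.castSucc) 1) ∨
    s = Finsupp.single w (2 * r - d)}
  set J0 : Ideal (MvPolynomial (Fin n) k) := Ideal.span ((fun s => monomial s (1 : k)) '' S) with hJ0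
  have hroww : row (Fin.last d) = w := by
    apply Fin.ext
    simp only [row, w, Fin.val_last]
    omega
  have hbad : ∀ t ∈ J0, ∀ μ ∈ t.support, (∃ i : Fin n, n ≤ (i : ℕ) + d ∧ μ i ≠ 0) ∨
      2 * r - d ≤ μ w := by
    intro t ht μ hμ
    rw [hJ0, mem_ideal_span_monomial_image] at ht
    obtain ⟨s, hsS, hsμ⟩ := ht μ hμ
    rcases hsS with ⟨i, rfl⟩ | rfl
    · left
      refine ⟨row i.castSucc, ?_, ?_⟩
      · simp only [row, Fin.val_castSucc]
        omega
      · have := hsμ (row i.castSucc)
        rw [Finsupp.single_eq_same] at this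
        omega
    · right
      have := hsμ w
      rw [Finsupp.single_eq_same] at this
      exact this
  have hsurj := subst_surj g hg
  have hmem : subst g (monomial m' 1) ∈ srI k L ⊔ Ideal.map (subst g) J0 := by
    have h1 := hF2 (subst g (monomial m' 1)) (subst_homog g (isHomogeneous_monomial _ hdeg'))
    have h2 : Ideal.span (Set.range (fun i : Fin d => lf (fun v => g (ρ (i.castSucc, v))))) ≤
        Ideal.map (subst g) J0 := by
      rw [Ideal.span_le]
      rintro _ ⟨i, rfl⟩
      change lf (fun v => g (row i.castSucc, v)) ∈ Ideal.map (subst g) J0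
      rw [← subst_X]
      refine Ideal.mem_map_of_mem _ (Ideal.subset_span ⟨_, Or.inl ⟨i, rfl⟩, rfl⟩)
    have h3 : Ideal.span {lf (fun v => g (ρ (Fin.last d, v))) ^ (2 * r - d)} ≤
        Ideal.map (subst g) J0 := by
      rw [Ideal.span_le, Set.singleton_subset_iff]
      change lf (fun v => g (row (Fin.last d), v)) ^ (2 * r - d) ∈ Ideal.map (subst g) J0
      rw [hroww, ← subst_X, ← map_pow]
      refine Ideal.mem_map_of_mem _ (Ideal.subset_span ⟨_, Or.inr rfl, ?_⟩)
      rw [X_pow_eq_monomial]
    exact (sup_le (sup_le le_sup_left (h2.trans le_sup_right)) (h3.trans le_sup_right)) h1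
  obtain ⟨s, hsI, t', ht', hst⟩ := Submodule.mem_sup.mp hmem
  obtain ⟨t, ht, rfl⟩ := (Ideal.mem_map_iff_of_surjective _ hsurj).mp ht'
  set f0 : MvPolynomial (Fin n) k := monomial m' 1 - t with hf0
  have hf0s : subst g f0 = s := by
    rw [hf0, map_sub, ← hst]
    ring
  set fh := homogeneousComponent r f0 with hfh
  have hfhI : subst g fh ∈ srI k L := by
    rw [hfh, ← subst_component, hf0s]
    exact srI_component L hsI r
  have htm' : coeff m' t = 0 := by
    by_contra h
    rcases hbad t ht m' (mem_support_iff.mpr h) with ⟨i, hi, hi'⟩ | h1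
    · exact hi' (hm0 i hi)
    · omega
  refine ⟨monomial m'' 1 * fh, ?_, ?_, ?_⟩
  · change subst g (monomial m'' 1 * fh) ∈ srI k L
    rw [map_mul]
    exact Ideal.mul_mem_left _ _ hfhI
  · rw [← hmm, coeff_monomial_mul, one_mul, hfh, coeff_homogeneousComponent, if_pos hdeg', hf0,
      coeff_sub, coeff_monomial, if_pos rfl, htm', sub_zero]
    exact one_ne_zero
  · intro μ hμ hne
    rw [mem_support_iff, coeff_monomial_mul'] at hμ
    split_ifs at hμ with hle
    · rw [one_mul, hfh, coeff_homogeneousComponent] at hμ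
      split_ifs at hμ with hdegμ
      · set μ' := μ - m'' with hμ'
        have hμμ : m'' + μ' = μ := by
          rw [hμ']
          exact add_tsub_cancel_of_le hle
        have hne' : μ' ≠ m' := by
          intro h
          apply hne
          rw [← hμμ, h, hmm]
        rw [hf0, coeff_sub, coeff_monomial, if_neg (Ne.symm hne'), zero_sub, neg_ne_zero] at hμ
        rw [← hμμ, ← hmm]
        exact revLT_aux m' m'' μ' w hw hm0 hmw (by rw [hdegμ, hdeg'])
          (hbad t ht μ' (mem_support_iff.mpr hμ))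
      · exact absurd rfl hμ
    · exact absurd rfl hμ



end G

section G2s
open Pool.Agent.W304.KS

theorem g2' : G2' := by
  classical
  intro k _ n j K hK
  refine ⟨minorsProd k n (j - 1), minorsProd_ne_zero k n (j - 1), ?_⟩
  intro g hg hF
  have h : ∀ σ : Finset (Fin n), ∃ c : Fin n → k, σ.card = j → (∀ v, c v ≠ 0 ↔ v ∈ σ) ∧
      ∀ i : Fin n, n < i + j → ∑ v, g (i, v) * c v = 0 := by
    intro σ
    by_cases hσ : σ.card = j
    · obtain ⟨c, hc⟩ := exists_c hF σ hσ
      exact ⟨c, fun _ => hc⟩
    · exact ⟨0, fun h => absurd h hσ⟩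
  choose c hc using h
  exact main K hK g hg c (fun σ _ h => hc σ h)



end G2s

section DDs
open Pool.Agent.W689.KS

open Classical in
theorem ddm (hg1 : G1') (hg2 : G2') (hg3 : StG3) (hphi : StPhi) (hcyc : Cyc')
    (hsupp : StSupp) (hgc : StGCnt) (hgn : StGNum) : DD' := by
  intro k _ hinf hk n d L hd hdn hL hemb S hS
  obtain ⟨m, hm1, hm2, hmS⟩ := hS
  refine ⟨m, ?_, hm2, hmS⟩
  intro hmg
  obtain ⟨hcx, hce⟩ := hcyc n d hd hdn
  have hal : Allowed n d m := by
    by_contra hna
    exact hm1 (hg1 k hk n d L hdn hL hemb m hna)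
  have hidx := hphi n m hm2
  obtain ⟨F1, hF1, hF1g⟩ := hmg
  -- the determinant polynomial
  set D : MvPolynomial (Fin n × Fin n) k := (Matrix.mvPolynomialX (Fin n) (Fin n) k).det with hD
  have hD0 : D ≠ 0 := Matrix.det_mvPolynomialX_ne_zero (Fin n) k
  have hDg : ∀ g : Fin n × Fin n → k, eval g D = (Matrix.of (fun i j => g (i, j))).det := by
    intro g
    rw [hD, RingHom.map_det]
    congr 1
    ext i j
    simp [Matrix.mvPolynomialX]
  rcases Nat.eq_zero_or_pos m.degree with h0 | hpos
  · -- degree zero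
    have hm0 : m = 0 := by
      rwa [Finsupp.degree_eq_zero_iff] at h0
    subst hm0
    obtain ⟨g, hg⟩ := exists_eval_ne (F1 * D) (mul_ne_zero hF1 hD0)
    rw [map_mul] at hg
    have hg1' := left_ne_zero_of_mul hg
    have hg2' := right_ne_zero_of_mul hg
    rw [hDg] at hg2'
    obtain ⟨f, hf, hf0, hfs⟩ := hF1g g hg2' hg1'
    have hsup : ∀ m' : Fin n →₀ ℕ, m' ≠ 0 → coeff m' f = 0 := by
      intro m' hm'
      by_contra hc
      have := hfs m' (mem_support_iff.2 hc) hm'
      rcases this with h | ⟨h, _⟩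
      · simp at h
      · apply hm'
        rw [map_zero] at h
        rwa [Finsupp.degree_eq_zero_iff] at h
    have hfC : f = C (coeff 0 f) := by
      ext m'
      rw [coeff_C]
      split_ifs with h
      · rw [h]
      · exact hsup m' (fun e => h e.symm)
    have hmem : (C (coeff 0 f) : MvPolynomial (Fin n) k) ∈ srI k (cyc n d) := by
      have h1 : subst g f ∈ srI k (cyc n d) := hf
      rw [hfC] at h1
      unfold Pool.Agent.W555.KS.subst at h1
      rw [aeval_C] at h1
      simpa using h1
    exact srI_ne_top (cyc n d) hcx.1 _ hf0 hmem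
  · -- positive degree
    obtain ⟨j, hj⟩ : ∃ j, m.degree = j + 1 := ⟨m.degree - 1, by omega⟩
    have hsum : ∀ s : Finset (Fin n), ∑ i ∈ s, m i ≤ m.degree := by
      intro s
      rw [Finsupp.degree_eq_sum]
      exact sum_le_sum_of_subset (subset_univ s)
    have hjd : j < d := by
      by_contra hjd
      have hall : ∑ i ∈ (univ : Finset (Fin n)).filter (fun i : Fin n => (i : ℕ) + d < n), m i =
          m.degree := by
        rw [Finsupp.degree_eq_sum]
        apply sum_subset (filter_subset _ _)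
        intro i _ hi
        by_contra hmi
        apply hi
        rw [mem_filter]
        refine ⟨mem_univ _, ?_⟩
        have := hidx i (Finsupp.mem_support_iff.2 hmi)
        omega
      have h2 := hal
      unfold Allowed at h2
      rw [hall] at h2
      have h3 := hsum ((univ : Finset (Fin n)).filter (fun i : Fin n => (i : ℕ) + d + 1 = n))
      omega
    -- polynomials for the non-allowed monomials
    have hfin : {m' : Fin n →₀ ℕ | m'.degree = j + 1}.Finite := finite_degree n (j + 1)
    have hna : ∀ m' : Fin n →₀ ℕ, ¬ Allowed n d m' → ∃ F : MvPolynomial (Fin n × Fin n) k, F ≠ 0 ∧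
        ∀ g : Fin n × Fin n → k, (Matrix.of (fun i j => g (i, j))).det ≠ 0 → eval g F ≠ 0 →
          m' ∈ inSet (coordI g (srI k (cyc n d))) :=
      fun m' h => hg1 k hk n d (cyc n d) hdn hcx hce m' h
    choose! G hG0 hGg using hna
    set F2 : MvPolynomial (Fin n × Fin n) k :=
      ∏ m' ∈ hfin.toFinset.filter (fun m' => ¬ Allowed n d m'), G m' with hF2
    have hF20 : F2 ≠ 0 := by
      rw [hF2, prod_ne_zero_iff]
      intro m' hm'
      exact hG0 m' (mem_filter.1 hm').2
    obtain ⟨F3, hF30, hF3g⟩ := hg2 k n (j + 1) (cyc n d) hcx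
    obtain ⟨g, hg⟩ := exists_eval_ne (F1 * F2 * F3 * D)
      (mul_ne_zero (mul_ne_zero (mul_ne_zero hF1 hF20) hF30) hD0)
    rw [map_mul, map_mul, map_mul] at hg
    have hgD := right_ne_zero_of_mul hg
    have hg3' := right_ne_zero_of_mul (left_ne_zero_of_mul hg)
    have hg2' := right_ne_zero_of_mul (left_ne_zero_of_mul (left_ne_zero_of_mul hg))
    have hg1' := left_ne_zero_of_mul (left_ne_zero_of_mul (left_ne_zero_of_mul hg))
    rw [hDg] at hgD
    have hmin := hF1g g hgD hg1'
    have hc1 := hF3g g hgD hg3'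
    have hnain : ∀ m' : Fin n →₀ ℕ, m'.degree = j + 1 → ¬ Allowed n d m' →
        m' ∈ inSet (coordI g (srI k (cyc n d))) := by
      intro m' hm' hna'
      apply hGg m' hna' g hgD
      rw [hF2, map_prod, prod_ne_zero_iff] at hg2'
      exact hg2' m' (mem_filter.2 ⟨by simpa using hm', hna'⟩)
    have hAfin : {m' : Fin n →₀ ℕ | m'.degree = j + 1 ∧
        (∀ i ∈ m'.support, (i : ℕ) + (j + 1) ≤ n) ∧ Allowed n d m'}.Finite :=
      hfin.subset (fun m' hm' => hm'.1)
    have hlt : {m' : Fin n →₀ ℕ | m'.degree = j + 1 ∧ (∀ i ∈ m'.support, (i : ℕ) + (j + 1) ≤ n) ∧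
        m' ∉ inSet (coordI g (srI k (cyc n d)))}.ncard <
        {m' : Fin n →₀ ℕ | m'.degree = j + 1 ∧
        (∀ i ∈ m'.support, (i : ℕ) + (j + 1) ≤ n) ∧ Allowed n d m'}.ncard := by
      apply Set.ncard_lt_ncard _ hAfin
      refine ⟨?_, ?_⟩
      · rintro m' ⟨h1, h2, h3⟩
        refine ⟨h1, h2, ?_⟩
        by_contra h4
        exact h3 (hnain m' h1 h4)
      · intro hsub
        have hmem : m ∈ {m' : Fin n →₀ ℕ | m'.degree = j + 1 ∧
            (∀ i ∈ m'.support, (i : ℕ) + (j + 1) ≤ n) ∧ Allowed n d m'} := by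
          refine ⟨hj, ?_, hal⟩
          intro i hi
          have := hidx i hi
          omega
        exact (hsub hmem).2.2 hmin
    have hc3 := hg3 n d j hjd hdn
    have hc4 := hgn n d j hjd hdn
    have hc5 := card_faces hsupp hgc n d (j + 1) hjd hdn
    have hc6 : ((cyc n d).filter (fun σ => σ.card = j + 1)).card ≤
      {m' : Fin n →₀ ℕ | m'.degree = j + 1 ∧ (∀ i ∈ m'.support, (i : ℕ) + (j + 1) ≤ n) ∧
        m' ∉ inSet (coordI g (srI k (cyc n d)))}.ncard := by
      convert hc1
    omega



end DDs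

theorem cyc' : Cyc' := fun n d hd hdn =>
  ⟨(W540.KS.cyc_emb n d hd hdn).1,
    vk2_of_odd (W540.KS.cyc_emb n d hd hdn).1
      (odd_of_coneEmb (W540.KS.cyc_emb n d hd hdn).1 (W540.KS.cyc_emb n d hd hdn).2)⟩

/-- **The theorem.** -/
theorem main : DD' := by
  have h2 : T2' := t2 (t1e' halg') (t1o' halg') W646.KS.ind (t2c (t1e' halg') W646.KS.ind)
  exact ddm (g1 (spec span2 h2)) g2' W386.KS.g3 W398.KS.phi_lt cyc' W386.KS.supp
    W410.KalSar.gcnt W682.KS.gnum

end Pool.Agent.Y131.KS
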